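import Mathlib
import Pool.Agent.Lib.MP_8ec070_an.Main

set_option autoImplicit false

namespace Pool.Agent.Results.MP_8ec070_an.EndpointFails

/-- Q2 has a negative answer: no finite constant `A` gives
`∫ |S⁰ f|² φ ≤ A ∫ |f|² M₀ φ` for all Schwartz `f` and all weights `φ` on the plane, where `S⁰` is
the disc multiplier and `M₀` the maximal function of averages over rays. -/
theorem result : ¬ ∃ A : NNReal, ∀ (f : SchwartzMap (EuclideanSpace ℝ (Fin 2)) ℂ)
    (φ : EuclideanSpace ℝ (Fin 2) → ℝ),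
    (∀ x, 0 ≤ φ x) → MeasureTheory.LocallyIntegrable φ MeasureTheory.volume →
    ∫⁻ x, ENNReal.ofReal
        (‖∫ ξ in Metric.ball (0 : EuclideanSpace ℝ (Fin 2)) 1,
            (∫ y, Complex.exp (((-2 * Real.pi * @inner ℝ _ _ y ξ : ℝ) : ℂ) * Complex.I) * f y) *
              Complex.exp (((2 * Real.pi * @inner ℝ _ _ x ξ : ℝ) : ℂ) * Complex.I)‖ ^ 2 * φ x)
      ≤ (A : ENNReal) * ∫⁻ x, ENNReal.ofReal (‖f x‖ ^ 2) *
          ⨆ (ω : EuclideanSpace ℝ (Fin 2)) (_ : ‖ω‖ = 1) (r : ℝ) (_ : 0 < r),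
            ENNReal.ofReal (2 / r ^ 2) *
              ∫⁻ s in Set.Ioc (0 : ℝ) r, ENNReal.ofReal (φ (x - s • ω) * s) :=
  Pool.Agent.Lib.MP_8ec070_an.not_endpoint

end Pool.Agent.Results.MP_8ec070_an.EndpointFails
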