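import Mathlib
import Pool.Agent.Lib.MP_8ec070_an.AllD

set_option autoImplicit false

namespace Pool.Agent.Results.MP_8ec070_an.SmallFails

/-- For all small `ε > 0` and every `δ ≥ 0` no finite constant `A` gives the weighted inequality
for the Bochner-Riesz operator `S^ε` and the maximal function `M_δ`. -/
theorem result : ∃ ε₀ : ℝ, 0 < ε₀ ∧ ∀ ε δ : ℝ, 0 < ε → ε ≤ ε₀ → 0 ≤ δ →
    ¬ ∃ A : NNReal, ∀ (f : SchwartzMap (EuclideanSpace ℝ (Fin 2)) ℂ)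
    (φ : EuclideanSpace ℝ (Fin 2) → ℝ),
    (∀ x, 0 ≤ φ x) → MeasureTheory.LocallyIntegrable φ MeasureTheory.volume →
    ∫⁻ x, ENNReal.ofReal
        (‖∫ ξ, (((max (1 - ‖ξ‖ ^ 2) 0) ^ ε : ℝ) : ℂ) *
            ((∫ y, Complex.exp (((-2 * Real.pi * @inner ℝ _ _ y ξ : ℝ) : ℂ) * Complex.I) * f y) *
              Complex.exp (((2 * Real.pi * @inner ℝ _ _ x ξ : ℝ) : ℂ) * Complex.I))‖ ^ 2 * φ x)
      ≤ (A : ENNReal) * ∫⁻ x, ENNReal.ofReal (‖f x‖ ^ 2) *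
        (if δ = 0 then
          ⨆ (ω : EuclideanSpace ℝ (Fin 2)) (_ : ‖ω‖ = 1) (r : ℝ) (_ : 0 < r),
            ENNReal.ofReal (2 / r ^ 2) *
              ∫⁻ s in Set.Ioc (0 : ℝ) r, ENNReal.ofReal (φ (x - s • ω) * s)
        else
          ⨆ (u : EuclideanSpace ℝ (Fin 2)) (_ : ‖u‖ = 1) (r : ℝ) (_ : 0 < r),
            ENNReal.ofReal (1 / r ^ 2) *
              ∫⁻ y in Metric.closedBall (0 : EuclideanSpace ℝ (Fin 2)) r,
                ENNReal.ofReal (δ * ‖(‖y‖⁻¹) • y - u‖ ^ (δ - 1) * φ (x - y))) := by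
  obtain ⟨ε₀, h0, h⟩ := Pool.Agent.MT8.small_not_ineq
  refine ⟨ε₀, h0, fun ε δ h1 h2 h3 ⟨A, hA⟩ => ?_⟩
  by_cases hδ : δ = 0
  · simp only [if_pos hδ] at hA
    exact h ε h1 h2 A hA
  · simp only [if_neg hδ] at hA
    obtain ⟨K, hK⟩ := Pool.Agent.MT8.MD_le (lt_of_le_of_ne h3 (Ne.symm hδ))
    refine h ε h1 h2 (A * K) fun f φ k1 k2 => (hA f φ k1 k2).trans ?_
    rw [ENNReal.coe_mul, mul_assoc, ← MeasureTheory.lintegral_const_mul' K _ ENNReal.coe_ne_top]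
    refine mul_le_mul_right (MeasureTheory.lintegral_mono fun x => ?_) _
    rw [mul_left_comm]
    exact mul_le_mul_right (hK φ x k1) _

end Pool.Agent.Results.MP_8ec070_an.SmallFails
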